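import Mathlib

set_option autoImplicit false

open Matrix
open scoped ComplexOrder

namespace Pool.Agent.Results.MP_d7084b_al.Two

variable {n : ℕ}

/-- the indefinite inner product `[x, y] = ⟨H x, y⟩ = (H x)^* y` -/
def ip (H : Matrix (Fin n) (Fin n) ℂ) (x y : Fin n → ℂ) : ℂ := star (H *ᵥ x) ⬝ᵥ y

/-- the `H`-adjoint `H⁻¹ M^* H` -/
noncomputable def adj (H M : Matrix (Fin n) (Fin n) ℂ) : Matrix (Fin n) (Fin n) ℂ := H⁻¹ * Mᴴ * H

/-- `X = U A` is an `H`-polar decomposition with commuting factors -/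
def IsCPD (H X U A : Matrix (Fin n) (Fin n) ℂ) : Prop :=
  X = U * A ∧ adj H U * U = 1 ∧ adj H A = A ∧ U * A = A * U

/-- `X` is `H`-decomposable -/
def Decomposable (H X : Matrix (Fin n) (Fin n) ℂ) : Prop :=
  ∃ W : Submodule ℂ (Fin n → ℂ), W ≠ ⊥ ∧ W ≠ ⊤ ∧
    (∀ x ∈ W, (∀ y ∈ W, ip H x y = 0) → x = 0) ∧
    (∀ x ∈ W, X *ᵥ x ∈ W) ∧ ∀ x ∈ W, adj H X *ᵥ x ∈ W

/-- the number of selfadjoint factors of `H`-polar decompositions with commuting factors -/
noncomputable def CPD (X H : Matrix (Fin n) (Fin n) ℂ) : Cardinal :=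
  Cardinal.mk {A : Matrix (Fin n) (Fin n) ℂ | ∃ U, IsCPD H X U A}

variable {H : Matrix (Fin n) (Fin n) ℂ}

theorem adj_mul (hd : IsUnit H.det) (M N : Matrix (Fin n) (Fin n) ℂ) :
    adj H (M * N) = adj H N * adj H M := by
  simp only [adj, conjTranspose_mul, Matrix.mul_assoc, mul_nonsing_inv_cancel_left _ _ hd]

theorem adj_adj (hH : H.IsHermitian) (hd : IsUnit H.det) (M : Matrix (Fin n) (Fin n) ℂ) :
    adj H (adj H M) = M := by
  simp only [adj, conjTranspose_mul, conjTranspose_nonsing_inv, hH.eq, conjTranspose_conjTranspose,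
    Matrix.mul_assoc, nonsing_inv_mul_cancel_left _ _ hd, nonsing_inv_mul _ hd, Matrix.mul_one]

theorem adj_sub_smul (hd : IsUnit H.det) (M : Matrix (Fin n) (Fin n) ℂ) (u : ℂ) :
    adj H (M - u • 1) = adj H M - star u • 1 := by
  simp only [adj, conjTranspose_sub, conjTranspose_smul, conjTranspose_one, Matrix.mul_sub,
    Matrix.sub_mul, Matrix.mul_smul, Matrix.smul_mul, Matrix.mul_one, nonsing_inv_mul _ hd]

theorem adj_neg (M : Matrix (Fin n) (Fin n) ℂ) : adj H (-M) = -adj H M := by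
  simp [adj]

theorem adj_pow (hd : IsUnit H.det) {B : Matrix (Fin n) (Fin n) ℂ} (hB : adj H B = B) (k : ℕ) :
    adj H (B ^ k) = B ^ k := by
  induction k with
  | zero => simp [adj, nonsing_inv_mul _ hd]
  | succ k ih => rw [pow_succ, adj_mul hd, ih, hB, ← pow_succ', pow_succ]

theorem fitting (hd : IsUnit H.det) {X B : Matrix (Fin n) (Fin n) ℂ}
    (hX : ¬ Decomposable H X) (hB : adj H B = B) (h1 : Commute X B) (h2 : Commute (adj H X) B) :
    IsNilpotent B ∨ IsUnit B := by
  obtain ⟨k, hk, hk1⟩ := ((LinearMap.eventually_isCompl_ker_pow_range_pow (toLin' B)).and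
    (Filter.eventually_ge_atTop 1)).exists
  rw [← toLin'_pow] at hk
  set C := B ^ k with hC
  have hCs : adj H C = C := adj_pow hd hB k
  have hinv : ∀ Y : Matrix (Fin n) (Fin n) ℂ, Commute Y B →
      ∀ x ∈ LinearMap.range (toLin' C), Y *ᵥ x ∈ LinearMap.range (toLin' C) := by
    rintro Y hY _ ⟨z, rfl⟩
    refine ⟨Y *ᵥ z, ?_⟩
    simp only [toLin'_apply, mulVec_mulVec]
    rw [hC, (hY.pow_right k).eq]
  by_cases hb : LinearMap.range (toLin' C) = ⊥
  · left
    refine ⟨k, ?_⟩
    rw [LinearMap.range_eq_bot] at hb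
    exact toLin'.injective (by rw [← hC, hb, map_zero])
  by_cases ht : LinearMap.range (toLin' C) = ⊤
  · right
    have : IsUnit C := mulVec_surjective_iff_isUnit.1 (LinearMap.range_eq_top.1 ht)
    exact (isUnit_pow_iff (by omega)).1 this
  refine absurd ⟨_, hb, ht, fun x hx hy => ?_, hinv X h1, hinv _ h2⟩ hX
  have hHC : H * C = Cᴴ * H := by
    conv_lhs => rw [← hCs, adj]
    simp only [Matrix.mul_assoc, mul_nonsing_inv_cancel_left _ _ hd]
  have h3 : (H * C) *ᵥ x = 0 := by
    have := hy (C *ᵥ ((H * C) *ᵥ x)) ⟨_, rfl⟩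
    rw [ip, dotProduct_mulVec, ← conjTranspose_conjTranspose C, ← star_mulVec, mulVec_mulVec,
      conjTranspose_conjTranspose, ← hHC] at this
    exact dotProduct_star_self_eq_zero.1 this
  have h4 : C *ᵥ x = 0 := by
    have : H⁻¹ *ᵥ ((H * C) *ᵥ x) = C *ᵥ x := by
      rw [mulVec_mulVec, nonsing_inv_mul_cancel_left _ _ hd]
    rw [← this, h3, mulVec_zero]
  exact (Submodule.disjoint_def.1 hk.disjoint) x h4 hx

theorem IsCPD.neg {X U A : Matrix (Fin n) (Fin n) ℂ} (h : IsCPD H X U A) :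
    IsCPD H X (-U) (-A) := by
  obtain ⟨a, b, c, d⟩ := h
  exact ⟨by simpa using a, by simpa [adj_neg] using b, by simpa [adj_neg] using c,
    by simpa using d⟩

/-- the selfadjoint element `(V^[*] - conj u)(V - u)` -/
noncomputable def bb (H V : Matrix (Fin n) (Fin n) ℂ) (u : ℂ) : Matrix (Fin n) (Fin n) ℂ :=
  (adj H V - star u • 1) * (V - u • 1)

theorem IsCPD.facts (hd : IsUnit H.det) {X U A : Matrix (Fin n) (Fin n) ℂ} (h : IsCPD H X U A) :
    U * adj H U = 1 ∧ U * adj H X = A ∧ Commute U (adj H X) ∧ U * A = X ∧ Commute U X := by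
  obtain ⟨a, b, c, d⟩ := h
  have e : U * adj H U = 1 := mul_eq_one_comm.1 b
  have f : adj H X = A * adj H U := by rw [a, adj_mul hd, c]
  have g : U * adj H X = A := by rw [f, ← Matrix.mul_assoc, d, Matrix.mul_assoc, e, Matrix.mul_one]
  refine ⟨e, g, ?_, a.symm, ?_⟩
  · rw [Commute, SemiconjBy, g, f, Matrix.mul_assoc, b, Matrix.mul_one]
  · rw [Commute, SemiconjBy, a, Matrix.mul_assoc, ← d]

theorem comm_inv {U V Y : Matrix (Fin n) (Fin n) ℂ} {U' V' : Matrix (Fin n) (Fin n) ℂ}
    (h1 : U' * U = 1) (h2 : V * V' = 1) (h : U * Y = Y * V) : U' * Y = Y * V' := by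
  calc U' * Y = U' * Y * (V * V') := by rw [h2, Matrix.mul_one]
    _ = U' * (Y * V) * V' := by simp only [Matrix.mul_assoc]
    _ = Y * V' := by rw [← h, ← Matrix.mul_assoc, h1, Matrix.one_mul]

theorem bb_semi {U V Y : Matrix (Fin n) (Fin n) ℂ} (h1 : adj H U * U = 1) (h2 : V * adj H V = 1)
    (h : U * Y = Y * V) (u : ℂ) : bb H U u * Y = Y * bb H V u := by
  have h' := comm_inv h1 h2 h
  have a : (U - u • 1) * Y = Y * (V - u • 1) := by simp [Matrix.sub_mul, Matrix.mul_sub, h]
  have b : (adj H U - star u • 1) * Y = Y * (adj H V - star u • 1) := by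
    simp [Matrix.sub_mul, Matrix.mul_sub, h']
  rw [bb, bb, Matrix.mul_assoc, a, ← Matrix.mul_assoc, b, Matrix.mul_assoc]

theorem bb_fit (hH : H.IsHermitian) (hd : IsUnit H.det) {X U A : Matrix (Fin n) (Fin n) ℂ}
    (hX : ¬ Decomposable H X) (h : IsCPD H X U A) (u : ℂ) :
    IsNilpotent (bb H U u) ∨ IsUnit (bb H U u) := by
  obtain ⟨e, -, c1, -, c2⟩ := h.facts hd
  refine fitting hd hX ?_ (bb_semi h.2.1 e c2.eq u).symm (bb_semi h.2.1 e c1.eq u).symm
  rw [bb, ← adj_sub_smul hd, adj_mul hd, adj_adj hH hd]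

theorem step (hd : IsUnit H.det) {X U A V B : Matrix (Fin n) (Fin n) ℂ}
    (h : IsCPD H X U A) (k : IsCPD H X V B) (u : ℂ) (hn : IsNilpotent (bb H U u))
    (hu : IsUnit (bb H V u)) : B = -A := by
  obtain ⟨-, a1, a2, a3, -⟩ := h.facts hd
  obtain ⟨e, b1, b2, b3, -⟩ := k.facts hd
  have h1 : U * (A + B) = (A + B) * V := by
    have h2 : A * V = U * B := by
      rw [← a1, ← b1, Matrix.mul_assoc, b2.eq]
    rw [Matrix.mul_add, Matrix.add_mul, a3, h2, ← k.2.2.2, b3]
    exact add_comm _ _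
  have h2 : SemiconjBy (A + B) (bb H V u) (bb H U u) := (bb_semi h.2.1 e h1 u).symm
  obtain ⟨m, hm⟩ := hn
  have h3 := (h2.pow_right m).eq
  rw [hm, Matrix.zero_mul] at h3
  have h4 : A + B = 0 := (hu.pow m).mul_left_eq_zero.1 h3
  exact eq_neg_of_add_eq_zero_right h4

/-- A nonzero `H`-indecomposable matrix with an `H`-polar decomposition with commuting factors
has exactly two selfadjoint factors of such decompositions. -/
theorem result (n : ℕ) (H X : Matrix (Fin n) (Fin n) ℂ) (hH : H.IsHermitian) (hd : H.det ≠ 0)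
    (hX0 : X ≠ 0) (hX : ¬ Decomposable H X) (hex : ∃ U A, IsCPD H X U A) : CPD X H = 2 := by
  have hd' : IsUnit H.det := isUnit_iff_ne_zero.2 hd
  obtain ⟨U, A, h⟩ := hex
  have : Nontrivial (Matrix (Fin n) (Fin n) ℂ) := ⟨X, 0, hX0⟩
  obtain ⟨u, hu⟩ := spectrum.nonempty_of_isAlgClosed_of_finiteDimensional ℂ U
  have hn : IsNilpotent (bb H U u) := by
    refine (bb_fit hH hd' hX h u).resolve_right fun hb => hu ?_
    rw [bb, isUnit_iff_isUnit_det, det_mul] at hb
    have := (isUnit_iff_isUnit_det _).2 (isUnit_of_mul_isUnit_right hb)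
    rw [spectrum.mem_resolventSet_iff, Algebra.algebraMap_eq_smul_one, ← neg_sub]
    exact this.neg
  have hset : {A : Matrix (Fin n) (Fin n) ℂ | ∃ U, IsCPD H X U A} = {A, -A} := by
    ext B
    constructor
    · rintro ⟨V, k⟩
      rcases bb_fit hH hd' hX k u with n1 | n1
      · rcases bb_fit hH hd' hX k.neg u with n2 | n2
        · exfalso
          obtain ⟨e, -⟩ := k.facts hd'
          have hsum : bb H V u + bb H (-V) u =
              (2 * (1 + star u * u)) • (1 : Matrix (Fin n) (Fin n) ℂ) := by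
            simp only [bb, adj_neg, Matrix.sub_mul, Matrix.mul_sub, Matrix.neg_mul, Matrix.mul_neg,
              k.2.1, Matrix.smul_mul, Matrix.mul_smul, Matrix.one_mul, Matrix.mul_one]
            module
          have hc : Commute (bb H V u) (bb H (-V) u) := by
            rw [← add_sub_cancel_left (bb H V u) (bb H (-V) u), hsum]
            exact ((Commute.one_right _).smul_right _).sub_right (Commute.refl _)
          have h3 := hc.isNilpotent_add n1 n2
          rw [hsum] at h3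
          have h4 : (2 * (1 + star u * u) : ℂ) ≠ 0 := by
            have : (star u * u : ℂ) = (Complex.normSq u : ℝ) := Complex.normSq_eq_conj_mul_self.symm
            rw [this]
            have := Complex.normSq_nonneg u
            exact_mod_cast (by positivity : (2 * (1 + Complex.normSq u) : ℝ) ≠ 0)
          rw [← Algebra.algebraMap_eq_smul_one] at h3
          exact h3.not_isUnit ((isUnit_iff_ne_zero.2 h4).map _)
        · left
          exact neg_injective (step hd' h k.neg u hn n2)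
      · right
        exact step hd' h k u hn n1
    · rintro (rfl | rfl)
      exacts [⟨U, h⟩, ⟨-U, h.neg⟩]
  have hne : A ≠ -A := by
    intro hA
    have : (2 : ℂ) • A = 0 := by rw [two_smul]; nth_rewrite 2 [hA]; exact add_neg_cancel A
    have hA0 : A = 0 := by simpa using this
    exact hX0 (by rw [h.1, hA0, Matrix.mul_zero])
  rw [CPD, hset, Cardinal.mk_insert (by simpa using hne), Cardinal.mk_singleton]
  norm_num

end Pool.Agent.Results.MP_d7084b_al.Two
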